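import Pool.Agent.X86.GS.Dim
import Mathlib.Topology.MetricSpace.HausdorffDimension

set_option autoImplicit false

open Filter Topology Asymptotics MeasureTheory
open scoped ENNReal NNReal

namespace Pool.Agent.Results.MP_3c4aa6_nt.PosDim

/-- The Weyl sum `S_d(x; N) = ∑_{n=1}^N exp(2πi (x₁ n + x₂ n² + ⋯ + x_d n^d))`; the coordinate
with index `i : Fin d` (so `i = 0, …, d-1`) is the coefficient of `n^(i+1)`. -/
noncomputable def weylSum {d : ℕ} (x : Fin d → ℝ) (N : ℕ) : ℂ :=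
  ∑ n ∈ Finset.Icc 1 N,
    Complex.exp (2 * Real.pi * Complex.I * ((∑ i : Fin d, x i * (n : ℝ) ^ (i.val + 1) : ℝ) : ℂ))

/-- The growth exponent: the infimum of `s > 0` with `|S_d(x; N)| = O(N^s)` as `N → ∞`. -/
noncomputable def growthExponent {d : ℕ} (x : Fin d → ℝ) : ℝ :=
  sInf {s : ℝ | 0 < s ∧ weylSum x =O[atTop] fun N : ℕ => (N : ℝ) ^ s}

/-- The level set `Ω_α^{(d)}` in the unit torus `[0,1)^d`. -/
def Omega (d : ℕ) (α : ℝ) : Set (Fin d → ℝ) :=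
  {x | (∀ i, x i ∈ Set.Ico (0 : ℝ) 1) ∧ growthExponent x = α}

open Pool.Agent.X86.GS in
/-- The point with second coordinate `θ` and all others `0`. -/
noncomputable def pt (d : ℕ) (θ : ℝ) : Fin d → ℝ := fun i => if i.val = 1 then θ else 0

lemma weyl_pt {d : ℕ} (hd : 2 ≤ d) (θ : ℝ) :
    weylSum (pt d θ) = fun N => Pool.Agent.X86.GS.S θ N := by
  funext N
  unfold weylSum Pool.Agent.X86.GS.S Pool.Agent.X86.GS.e
  refine Finset.sum_congr rfl fun n _ => ?_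
  have h1 : (∑ i : Fin d, pt d θ i * (n : ℝ) ^ (i.val + 1)) = θ * (n : ℝ) ^ 2 := by
    rw [Finset.sum_eq_single (⟨1, hd⟩ : Fin d)]
    · simp [pt]
    · intro i _ hi
      have : i.val ≠ 1 := fun h => hi (Fin.ext h)
      simp [pt, this]
    · intro h; exact absurd (Finset.mem_univ _) h
  rw [h1]
  congr 1
  push_cast
  ring

lemma pt_mem {d : ℕ} (hd : 2 ≤ d) {τ : ℝ} (hτ : 1 < τ) (t : ℝ) :
    pt d (Pool.Agent.X86.GS.th hτ t) ∈ Omega d (τ / (1 + τ)) := by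
  refine ⟨fun i => ?_, ?_⟩
  · unfold pt
    have := Pool.Agent.X86.GS.th_mem hτ t
    split_ifs
    · exact ⟨this.1.le, this.2⟩
    · simp
  · unfold growthExponent
    rw [weyl_pt hd]
    exact Pool.Agent.X86.GS.sigma_th hτ t

lemma pt_dist {d : ℕ} (hd : 2 ≤ d) (θ θ' : ℝ) : |θ - θ'| ≤ dist (pt d θ) (pt d θ') := by
  have h := dist_le_pi_dist (pt d θ) (pt d θ') ⟨1, hd⟩
  simpa [pt, Real.dist_eq] using h

theorem dim_lower {d : ℕ} (hd : 2 ≤ d) {τ : ℝ} (hτ : 1 < τ) :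
    ENNReal.ofReal (1 / (4 * τ)) ≤ dimH (Omega d (τ / (1 + τ))) := by
  classical
  have hτ0 : 0 < τ := by linarith
  set F : ℝ → (Fin d → ℝ) := fun t => pt d (Pool.Agent.X86.GS.th hτ t) with hF
  set X : Set (Fin d → ℝ) := F '' Set.Ico (0:ℝ) 1 with hX
  have hXsub : X ⊆ Omega d (τ / (1 + τ)) := by
    rintro _ ⟨t, _, rfl⟩
    exact pt_mem hd hτ t
  have hexp : ∀ t ∈ Set.Ico (0:ℝ) 1, ∀ t' ∈ Set.Ico (0:ℝ) 1,
      |t - t'| ≤ 2 ^ (Pool.Agent.X86.GS.sq τ 0 + 2) * dist (F t) (F t') ^ (1 / (4 * τ)) := by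
    intro t ht t' ht'
    refine (Pool.Agent.X86.GS.holder hτ ht ht').trans ?_
    gcongr
    exact pt_dist hd _ _
  -- inverse map
  set g : (Fin d → ℝ) → ℝ := fun x => if h : x ∈ X then Classical.choose h else 0 with hg
  have hgspec : ∀ x ∈ X, g x ∈ Set.Ico (0:ℝ) 1 ∧ F (g x) = x := by
    intro x hx
    have : g x = Classical.choose hx := by simp [hg, hx]
    rw [this]
    exact Classical.choose_spec hx
  have hgF : ∀ t ∈ Set.Ico (0:ℝ) 1, g (F t) = t := by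
    intro t ht
    have hx : F t ∈ X := ⟨t, ht, rfl⟩
    obtain ⟨h1, h2⟩ := hgspec _ hx
    have h3 := hexp _ h1 _ ht
    rw [h2, dist_self, Real.zero_rpow (by positivity), mul_zero] at h3
    have h4 := abs_nonneg (g (F t) - t)
    have h5 : |g (F t) - t| = 0 := le_antisymm h3 h4
    linarith [abs_eq_zero.mp h5]
  set r : ℝ≥0 := ⟨1 / (4 * τ), by positivity⟩ with hr
  have hr0 : 0 < r := by
    rw [← NNReal.coe_pos]
    change (0:ℝ) < 1 / (4 * τ)
    positivity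
  set C : ℝ≥0 := 2 ^ (Pool.Agent.X86.GS.sq τ 0 + 2) with hC
  have hholder : HolderOnWith C r g X := by
    intro x hx y hy
    obtain ⟨h1, h2⟩ := hgspec _ hx
    obtain ⟨h3, h4⟩ := hgspec _ hy
    have h5 := hexp _ h1 _ h3
    rw [h2, h4] at h5
    rw [edist_dist, edist_dist, ENNReal.ofReal_rpow_of_nonneg dist_nonneg (NNReal.coe_nonneg _)]
    rw [← ENNReal.ofReal_coe_nnreal, ← ENNReal.ofReal_mul (NNReal.coe_nonneg _)]
    apply ENNReal.ofReal_le_ofReal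
    rw [Real.dist_eq]
    have : ((C : ℝ≥0) : ℝ) = 2 ^ (Pool.Agent.X86.GS.sq τ 0 + 2) := by simp [hC]
    rw [this]
    exact h5
  have himg : Set.Ico (0:ℝ) 1 ⊆ g '' X := by
    intro t ht
    exact ⟨F t, ⟨t, ht, rfl⟩, hgF t ht⟩
  have h1 : (1 : ℝ≥0∞) ≤ dimH (g '' X) := by
    have h2 : dimH (Set.Ico (0:ℝ) 1) = 1 := by
      have := Real.dimH_of_nonempty_interior (s := Set.Ico (0:ℝ) 1) (by simp)
      simpa using this
    rw [← h2]
    exact dimH_mono himg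
  have h3 := hholder.dimH_image_le hr0
  have h4 : (1 : ℝ≥0∞) ≤ dimH X / r := h1.trans h3
  have h5 : (r : ℝ≥0∞) ≤ dimH X := by
    have hr' : (r : ℝ≥0∞) ≠ 0 := by
      simpa using hr0.ne'
    rw [ENNReal.le_div_iff_mul_le (Or.inl hr') (Or.inl ENNReal.coe_ne_top), one_mul] at h4
    exact h4
  calc ENNReal.ofReal (1 / (4 * τ)) = (r : ℝ≥0∞) := by
        rw [← ENNReal.ofReal_coe_nnreal]; rfl
    _ ≤ dimH X := h5
    _ ≤ _ := dimH_mono hXsub

/-- For every `d ≥ 2` and every `α ∈ (1/2, 1)` the level set `Ω_α^{(d)}` has Hausdorff dimension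
at least `(1-α)/(4α) > 0`; in particular for every `d ≥ 2` there is a set `A ⊆ [0,1]` of positive
Lebesgue measure (namely `A = (1/2,1)`) all of whose elements `α` satisfy
`dim Ω_α^{(d)} > 0`. -/
theorem result : ∀ d : ℕ, 2 ≤ d →
    (∀ α ∈ Set.Ioo (1 / 2 : ℝ) 1, ENNReal.ofReal ((1 - α) / (4 * α)) ≤ dimH (Omega d α)) ∧
    (∃ A : Set ℝ, A ⊆ Set.Icc 0 1 ∧ 0 < volume A ∧ ∀ α ∈ A, 0 < dimH (Omega d α)) := by
  intro d hd
  have main : ∀ α ∈ Set.Ioo (1 / 2 : ℝ) 1,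
      ENNReal.ofReal ((1 - α) / (4 * α)) ≤ dimH (Omega d α) := by
    intro α hα
    have h0 : 0 < 1 - α := by linarith [hα.2]
    have h1 : 0 < α := by linarith [hα.1]
    have hτ : 1 < α / (1 - α) := by
      rw [one_lt_div h0]; linarith [hα.1]
    have h2 := dim_lower hd hτ
    have e1 : α / (1 - α) / (1 + α / (1 - α)) = α := by
      field_simp
      ring
    have e2 : 1 / (4 * (α / (1 - α))) = (1 - α) / (4 * α) := by
      field_simp
    rw [e1, e2] at h2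
    exact h2
  refine ⟨main, Set.Ioo (1 / 2 : ℝ) 1, ?_, ?_, ?_⟩
  · intro α hα
    exact ⟨by linarith [hα.1], hα.2.le⟩
  · rw [Real.volume_Ioo]
    norm_num
  · intro α hα
    refine lt_of_lt_of_le ?_ (main α hα)
    rw [ENNReal.ofReal_pos]
    have h0 : 0 < 1 - α := by linarith [hα.2]
    have h1 : 0 < α := by linarith [hα.1]
    positivity

end Pool.Agent.Results.MP_3c4aa6_nt.PosDim
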